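import Pool.Agent.MVD.StmtsLoc

/-!
# Squad MVD, row RGD
-/

set_option autoImplicit false

namespace Pool.Agent.MVD.H5

open Pool.Agent.Helper14_MV Pool.Agent.Helper2_MV Pool.Agent.MVD

theorem filter_one {p : ℕ → Bool} {b : ℕ} (hb : p b = true) :
    ∀ l : List ℕ, (∀ x ∈ l, p x = true → x = b) → l.filter p = List.replicate (l.count b) b
  | [], _ => rfl
  | x :: l, h => by
    have ih := filter_one hb l fun y hy => h y (List.mem_cons_of_mem _ hy)
    by_cases hx : p x = true
    · have e := h x List.mem_cons_self hx
      subst e
      rw [List.filter_cons_of_pos hx, ih, List.count_cons_self, List.replicate_succ]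
    · have e : x ≠ b := fun e => hx (e ▸ hb)
      rw [List.filter_cons_of_neg hx, ih, List.count_cons_of_ne e]

theorem fa_iff {a b : ℕ} (hab : a ≠ b) (l : List ℕ) :
    FA a b l ↔ (l.filter (fun c => decide (c = a ∨ c = b))).head? = some a := by
  induction l with
  | nil =>
    constructor
    · rintro ⟨A, C, h, _⟩
      exact absurd h (by simp)
    · intro h
      simp at h
  | cons x l ih =>
    by_cases hxa : x = a
    · subst hxa
      rw [List.filter_cons_of_pos (by simp)]
      constructor
      · intro _
        rfl
      · intro _
        exact ⟨[], l, rfl, by simp⟩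
    · by_cases hxb : x = b
      · subst hxb
        rw [List.filter_cons_of_pos (by simp)]
        constructor
        · rintro ⟨A, C, h, hA⟩
          cases A with
          | nil =>
            rw [List.nil_append, List.cons.injEq] at h
            exact absurd h.1 hxa
          | cons y A =>
            rw [List.cons_append, List.cons.injEq] at h
            exact absurd (h.1 ▸ List.mem_cons_self) hA
        · intro h
          rw [List.head?_cons, Option.some.injEq] at h
          exact absurd h hxa
      · rw [List.filter_cons_of_neg (by simp [hxa, hxb]), ← ih]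
        constructor
        · rintro ⟨A, C, h, hA⟩
          cases A with
          | nil =>
            rw [List.nil_append, List.cons.injEq] at h
            exact absurd h.1 hxa
          | cons y A =>
            rw [List.cons_append, List.cons.injEq] at h
            exact ⟨A, C, h.2, fun h2 => hA (List.mem_cons_of_mem _ h2)⟩
        · rintro ⟨A, C, h, hA⟩
          refine ⟨x :: A, C, by rw [h]; rfl, ?_⟩
          intro h2
          rcases List.mem_cons.1 h2 with h3 | h3
          · exact hxb h3.symm
          · exact hA h3

/-- the three words -/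
theorem three {a b : ℕ} (hab : a ≠ b) {L : List ℕ} (hL : ∀ x ∈ L, x = a ∨ x = b)
    (ha : L.count a = 2) (hb : L.count b = 1) :
    L = [a, a, b] ∨ L = [a, b, a] ∨ L = [b, a, a] := by
  have hba : b ≠ a := fun h => hab h.symm
  match L, hL, ha, hb with
  | [], _, ha, _ => simp at ha
  | [x], _, ha, _ =>
    have := List.count_le_length (a := a) (l := [x])
    rw [ha] at this
    simp at this
  | [x, y], hL, ha, hb =>
    have hx := hL x (by simp)
    have hy := hL y (by simp)
    rcases hx with rfl | rfl <;> rcases hy with rfl | rfl <;> simp_all
  | [x, y, z], hL, ha, hb =>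
    have hx := hL x (by simp)
    have hy := hL y (by simp)
    have hz := hL z (by simp)
    rcases hx with rfl | rfl <;> rcases hy with rfl | rfl <;> rcases hz with rfl | rfl <;>
      simp_all
  | x :: y :: z :: w :: l, hL, ha, hb =>
    exfalso
    have h1 : ∀ M : List ℕ, (∀ u ∈ M, u = a ∨ u = b) → M.length = M.count a + M.count b := by
      intro M
      induction M with
      | nil => intro _; simp
      | cons u M ih =>
        intro hM
        have h2 := ih fun v hv => hM v (List.mem_cons_of_mem _ hv)
        rcases hM u List.mem_cons_self with rfl | rfl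
        · rw [List.count_cons_self, List.count_cons_of_ne hab, List.length_cons]
          omega
        · rw [List.count_cons_self, List.count_cons_of_ne hba, List.length_cons]
          omega
    have h3 := h1 _ hL
    rw [ha, hb] at h3
    simp at h3

theorem rgd : RgdStmt := by
  intro β hS2 hA R B B' e e' hR hB hB' he he' hRR a b m s hab ha2 hb2 hbf haB haB' hbB hbB'
    hea heb hea' heb'
  obtain ⟨A, D, C, hRe⟩ := hbf
  have hms : m ≠ s := by
    intro h
    rw [hRe, h] at hR
    have h1 := (List.nodup_append.1 hR).2.1
    rw [List.nodup_cons] at h1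
    exact h1.1 (by simp)
  have hta : 3 * m + 2 ≠ a := fun h => ha2 (by omega)
  have htb : 3 * m + 2 ≠ b := fun h => hb2 (by omega)
  have hmR : m ∈ R := by rw [hRe]; simp
  have hsR : s ∈ R := by rw [hRe]; simp
  set p : ℕ → Bool := fun c => decide (c = a ∨ c = b ∨ c = 3 * m + 2) with hp
  -- the projection of a word
  have key : ∀ (B : ℕ → List ℕ) (e : List ℕ), (∀ r ∈ R, SFr (B r)) → SFr e →
      (∀ q ∈ R, (B q).count a = if q = m then 2 else 0) →
      (∀ q ∈ R, (B q).count b = if q = s ∨ q = m then 1 else 0) →
      e.count a = 0 → e.count b = 0 →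
      (Bw R B ++ e).filter p =
        (B m).filter (fun c => decide (c = a ∨ c = b)) ++ [3 * m + 2, b] := by
    intro B e hB he ha hb hea heb
    have hz : ∀ q ∈ R, q ≠ m → q ≠ s → (B q ++ [3 * q + 2]).filter p = [] := by
      intro q hq hqm hqs
      rw [List.filter_eq_nil_iff]
      intro c hc
      rw [hp, decide_eq_true_eq]
      rcases List.mem_append.1 hc with h | h
      · have h1 : (B q).count a = 0 := by rw [ha q hq, if_neg hqm]
        have h2 : (B q).count b = 0 := by
          rw [hb q hq, if_neg (by rintro (h | h); exact hqs h; exact hqm h)]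
        rw [List.count_eq_zero] at h1 h2
        rintro (rfl | rfl | rfl)
        · exact h1 h
        · exact h2 h
        · exact hB q hq _ h (by omega)
      · rw [List.mem_singleton] at h
        subst h
        rintro (h | h | h)
        · exact ha2 (by omega)
        · exact hb2 (by omega)
        · exact hqm (by omega)
    have hzz : ∀ T : List ℕ, (∀ q ∈ T, q ∈ R ∧ q ≠ m ∧ q ≠ s) → (Bw T B).filter p = [] := by
      intro T
      induction T with
      | nil => intro _; rfl
      | cons q T ih =>
        intro hT
        obtain ⟨h1, h2, h3⟩ := hT q List.mem_cons_self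
        unfold Bw
        rw [List.flatMap_cons, List.filter_append, hz q h1 h2 h3, List.nil_append]
        exact ih fun r hr => hT r (List.mem_cons_of_mem _ hr)
    have hnd := hR
    rw [hRe] at hnd
    have hA' : ∀ q ∈ A, q ∈ R ∧ q ≠ m ∧ q ≠ s := by
      intro q hq
      have h1 := (List.nodup_append.1 hnd).2.2
      refine ⟨by rw [hRe]; exact List.mem_append_left _ hq, ?_, ?_⟩
      · exact h1 q hq m (by simp)
      · exact h1 q hq s (by simp)
    have h2 := (List.nodup_append.1 hnd).2.1
    rw [List.nodup_cons] at h2
    have hD' : ∀ q ∈ D, q ∈ R ∧ q ≠ m ∧ q ≠ s := by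
      intro q hq
      refine ⟨by rw [hRe]; simp [hq], ?_, ?_⟩
      · rintro rfl
        exact h2.1 (List.mem_append_left _ hq)
      · exact (List.nodup_append.1 h2.2).2.2 q hq s (by simp)
    have hC' : ∀ q ∈ C, q ∈ R ∧ q ≠ m ∧ q ≠ s := by
      intro q hq
      refine ⟨by rw [hRe]; simp [hq], ?_, ?_⟩
      · rintro rfl
        exact h2.1 (by simp [hq])
      · rintro rfl
        have h3 := (List.nodup_append.1 h2.2).2.1
        rw [List.nodup_cons] at h3
        exact h3.1 hq
    have e1 : Bw R B = Bw A B ++ (B m ++ [3 * m + 2]) ++ (Bw D B ++ (B s ++ [3 * s + 2]) ++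
        Bw C B) := by
      rw [hRe]
      unfold Bw
      simp
    have e2 : (B m ++ [3 * m + 2]).filter p =
        (B m).filter (fun c => decide (c = a ∨ c = b)) ++ [3 * m + 2] := by
      rw [List.filter_append]
      congr 1
      · refine List.filter_congr fun c hc => ?_
        rw [hp]
        have : c ≠ 3 * m + 2 := fun h => hB m hmR c hc (by omega)
        simp [this]
      · rw [hp]
        simp
    have e3 : (B s ++ [3 * s + 2]).filter p = [b] := by
      rw [List.filter_append]
      have h3 : (B s).filter p = [b] := by
        rw [filter_one (b := b) (by rw [hp]; simp)]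
        · rw [hb s hsR, if_pos (Or.inl rfl)]
          rfl
        · intro x hx hpx
          rw [hp, decide_eq_true_eq] at hpx
          rcases hpx with rfl | h | rfl
          · have h4 := ha s hsR
            rw [if_neg (fun h => hms h.symm), List.count_eq_zero] at h4
            exact absurd hx h4
          · exact h
          · exact absurd (by omega) (hB s hsR _ hx)
      have h5 : ([3 * s + 2] : List ℕ).filter p = [] := by
        rw [List.filter_eq_nil_iff]
        intro c hc
        rw [List.mem_singleton] at hc
        subst hc
        rw [hp, decide_eq_true_eq]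
        rintro (h | h | h)
        · exact ha2 (by omega)
        · exact hb2 (by omega)
        · exact hms (by omega)
      rw [h3, h5]
      rfl
    have e4 : e.filter p = [] := by
      rw [List.filter_eq_nil_iff]
      intro c hc
      rw [hp, decide_eq_true_eq]
      rw [List.count_eq_zero] at hea heb
      rintro (rfl | rfl | rfl)
      · exact hea hc
      · exact heb hc
      · exact he _ hc (by omega)
    have hf : ∀ X1 X2 X3 X4 X5 X6 : List ℕ, (X1 ++ X2 ++ (X3 ++ X4 ++ X5) ++ X6).filter p =
        X1.filter p ++ X2.filter p ++ (X3.filter p ++ X4.filter p ++ X5.filter p) ++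
          X6.filter p := by
      intros
      simp only [List.filter_append]
    rw [e1, hf, hzz A hA', hzz D hD', hzz C hC', e2, e3, e4]
    simp
  have h1 := hRR.filter p
  rw [key B e hB he haB hbB hea heb, key B' e' hB' he' haB' hbB' hea' heb'] at h1
  -- the two projections
  have hL : ∀ B : ℕ → List ℕ, (∀ q ∈ R, (B q).count a = if q = m then 2 else 0) →
      (∀ q ∈ R, (B q).count b = if q = s ∨ q = m then 1 else 0) →
      (B m).filter (fun c => decide (c = a ∨ c = b)) = [a, a, b] ∨
      (B m).filter (fun c => decide (c = a ∨ c = b)) = [a, b, a] ∨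
      (B m).filter (fun c => decide (c = a ∨ c = b)) = [b, a, a] := by
    intro B ha hb
    refine three hab ?_ ?_ ?_
    · intro x hx
      have := (List.mem_filter.1 hx).2
      exact of_decide_eq_true this
    · rw [List.count_filter (by simp), ha m hmR, if_pos rfl]
    · rw [List.count_filter (by simp), hb m hmR, if_pos (Or.inr rfl)]
  rw [fa_iff hab, fa_iff hab]
  have hba : b ≠ a := fun h => hab h.symm
  -- `aab t b ≈ aba t b`
  have hs : RR β [a, a, b, 3 * m + 2, b] [a, b, a, 3 * m + 2, b] := by
    have h2 := hS2.sub (fun c => if c = 0 then [a] else if c = 3 then [b] else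
      if c = 5 then [3 * m + 2] else [])
    simpa using h2
  -- the identity `IAd`
  have hfin : RR β [a, a, b, 3 * m + 2, b] [b, a, a, 3 * m + 2, b] → False := by
    intro h2
    apply hA
    have h3 := h2.sub (fun c => if c = a then [3] else if c = b then [0] else [2])
    have h4 : RR β [3, 3, 0, 2, 0] [0, 3, 3, 2, 0] := by
      simpa [hab, hba, hta, htb] using h3
    exact h4
  rcases hL B haB hbB with h | h | h <;> rcases hL B' haB' hbB' with h' | h' | h' <;>
    rw [h, h'] at h1 ⊢
  · exact Iff.rfl
  · exact (hfin h1).elim
  · exact Iff.rfl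
  · exact (hfin (β.trans hs h1)).elim
  · exact (hfin (RR.symm h1)).elim
  · exact (hfin (β.trans hs (RR.symm h1))).elim

end Pool.Agent.MVD.H5
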